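import Pool.Agent.U841.SC.Top2
import Pool.Agent.U841.SC.Pt

set_option autoImplicit false

/-! # The equivariant motivic monodromy conjecture (Bernstein-Sato form) for hypersurfaces resolved by the
blow-up of smooth centres

Let `f t`, `t ∈ T`, be finitely many nonconstant polynomials in `n` variables with coefficients in a
field `k ⊆ ℂ`, squarefree and without common factors over `ℂ`, let `a t ≥ 1`, and let
`F = ∏ t, f t ^ a t` (up to a constant every nonconstant polynomial is of this form). Let `Z_i`, `i ∈ I`,
be finitely many smooth centres of codimensions `c_i ≥ 2` (`Centre`: given by formal coordinates at a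
point `p_i`), such that the fibre over `p_i` of the projectivized normal cone of `F = 0` along `Z_i`
is a simple normal crossing divisor of the projective space `ℙ^(c_i-1)`, with arbitrary
multiplicities, and not just at most `c_i` hyperplanes (`ConeNC`).

This covers all `F` which are resolved by the blow-up of a smooth closed subvariety `Z = ⊔ Z_i` of `ℂ ^ n`
(points, curves, …, also of different dimensions), unless the hypersurfaces `f t = 0` already cross
normally at the general point of some `Z_i`. For then the exceptional divisor `E_i` over `Z_i` and the
strict transforms of the hypersurfaces form a simple normal crossing divisor, so by generic smoothness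
the strict transforms meet the fibre `ℙ^(c_i-1)` of `E_i` over a general point `p_i` of `Z_i` in smooth
hypersurfaces which cross normally; and these are the components of the projectivized normal cone.
The numbers of `E_i` are `ν = c_i` and `N =` the multiplicity of `F` along `Z_i`; those of the strict
transform of `f t = 0` are `1` and `a t`. (The same holds for successive blow-ups of subvarieties
`Z_i` of `ℂ ^ n`, respectively of their strict transforms, if none of them contains another one.) The
singularities of `F` are in general neither isolated nor reduced nor homogeneous nor locally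
trivial along the `Z_i`. For a point `Z = {p}` the normal cone is the tangent cone (`init_point`).

By the formula of Denef and Loeser the equivariant motivic zeta function of `F` is
`Z_F(T) = ∑_J (𝕃 - 1) ^ (|J| - 1) [E_J~] ∏_{i ∈ J} 𝕃 ^ (-ν_i) T ^ (N_i) / (1 - 𝕃 ^ (-ν_i) T ^ (N_i))`, where `J` runs
over the nonempty sets of components of the total transform and `E_J~` is the covering of the
stratum of `J` (`dlZ`).

The main point is that `-c/N` is a root of the Bernstein-Sato polynomials of `F` at the points of a
centre `Z` near a point `p` at which the projectivized normal cone of `F = 0` along `Z` is such a divisor;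
here `c` is the codimension of `Z` and `N` is the multiplicity of `F` along `Z` (`centre_root`). Outline of
the proof. Let `y = (x, z)` be formal coordinates at `p`, where the `x_1, …, x_c` are the coordinates which
vanish on `Z`. The functional equation `b(s) F ^ s = P(s) F ^ (s + 1)` is transported to differential
operators with formal power series coefficients in these coordinates (`transport`); such an operator
is the sum of an operator which preserves the order along `Z` and of operators of the form
`∂_{x_l} u_l` (`decomp`). So the part of degree `N s` in `x` of the functional equation at `z = 0` says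
that `b(s) G ^ s` is a sum of derivatives, with respect to the `x_l`, of elements of degree `N s + 1` of
`ℂ[s][x, 1/G] G ^ s`, where `G = initZ Z F` is the equation of the fibre of the normal cone (`extS`). Let
`b(-c/N) ≠ 0`. For `s = -c/N` it follows that the twisted form `G ^ (-c/N) ω` on the complement of the
divisor `G = 0` of `ℙ^(c-1)` is the differential of a form with poles. By the trick of Cayley, twisted
forms with poles along the components `g_t = 0`, `t = 0, …, r`, of the divisor become cohomology
classes of the twisted de Rham complex of the function `∑_t y_t g_t` in the variables `x_j` and `y_t`,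
whose symbol complex is the Koszul complex on the `c + r` elements `∑_t y_t ∂_j g_t` and `y_t g_t`,
`t ≥ 1`. By the normal crossings these elements generate an ideal which contains a power of the
product of the ideals `(x_j)` and `(y_t)`. The first homology of the Koszul complex vanishes in the
bidegrees which occur (`H1_NC`). Therefore the order of the poles can be lowered (`reduce`), and at
the end one gets a linear vector field `v` with `v(g_t) = c_t g_t` for all `t`, where `c_0 = 0`, and a
relation between `div v` and the `c_t`; this leads to a contradiction if `g_0` has degree `≥ 2` (`alg`), or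
if all the `g_t` are linear and `r ≥ c` (`alg2`). The roots `-1 / a t` come from general points of the
hypersurfaces `f t = 0` (`str_root`). -/

namespace Pool.Agent.Results.MP_b48657_ag.SmoothCentres

open MvPolynomial Pool.Agent.H628R4.TP Pool.Agent.TH192.DT Pool.Agent.U841.SN Pool.Agent.U841.SC

/-- **The equivariant motivic monodromy conjecture (Bernstein-Sato form) for hypersurfaces resolved by
the blow-up of smooth centres.** Let `k` be a field with an embedding in `ℂ`, and let the polynomials
`f t` have coefficients in `k`. There is a finite set `𝒮` of pairs `q₁ < 0 < q₂` for which `q₁ / q₂` is a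
root of every `b` with `b(s) F ^ s = P(s) F ^ (s + 1)` (`P(s)` in the Weyl algebra; for example
`b = b_F`), such that the series `Z_F(T)` of the formula above, with arbitrary elements `e J` of a
commutative ring `R` with a unit `u` (for example `R = 𝓜^μ_{X_s}`, `u = 𝕃`, `e J = [E_J~]`), lies in the
ring generated over `R` by `T` and the `1 / (1 - u ^ q₁ T ^ q₂)`, `q ∈ 𝒮`; the components over `k` are
indexed by any finite set, and `κ` gives their numbers. -/
theorem result (k : Type) [Field k] [Algebra k ℂ] {n : ℕ} {T I : Type} [Fintype T] [Fintype I]
    (f : T → MvPolynomial (Fin n) k) (hu : ∀ t, ¬ IsUnit (map (algebraMap k ℂ) (f t)))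
    (hsq : ∀ t, Squarefree (map (algebraMap k ℂ) (f t)))
    (hcop : ∀ s t, s ≠ t → IsRelPrime (map (algebraMap k ℂ) (f s)) (map (algebraMap k ℂ) (f t)))
    (a : T → ℕ) (ha : ∀ t, 0 < a t) (Z : I → Centre n)
    (hZ : ∀ i, ConeNC (Z i) (map (algebraMap k ℂ) (∏ t, f t ^ a t))) :
    ∃ 𝒮 : Finset (ℤ × ℤ),
      (∀ q ∈ 𝒮, q.1 < 0 ∧ 0 < q.2 ∧ ∀ b : Polynomial ℂ,
        IsBFunction (map (algebraMap k ℂ) (∏ t, f t ^ a t)) b → b.eval ((q.1 : ℂ) / q.2) = 0) ∧
      ∀ (ι : Type) [Fintype ι] (κ : ι → I ⊕ T) (R : Type) [CommRing R] (u : Rˣ)
        (e : Finset {i // 0 < (mulZ Z (map (algebraMap k ℂ) (∏ t, f t ^ a t)) a ∘ κ) i} → R),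
        dlZ u (nuZ Z T ∘ κ) (mulZ Z (map (algebraMap k ℂ) (∏ t, f t ^ a t)) a ∘ κ)
          (fun J => if J.card = 0 then 0 else ((u : R) - 1) ^ (J.card - 1) * e J) ∈
          ratU u (𝒮 : Set (ℤ × ℤ)) :=
  ⟨pairs (nuZ Z T) (mulZ Z (map (algebraMap k ℂ) (∏ t, f t ^ a t)) a),
    pairs_goodZ k f hsq hcop hu a ha Z hZ, fun _ _ κ _ _ u _ => dlZ_pull κ _ _ u _⟩

end Pool.Agent.Results.MP_b48657_ag.SmoothCentres
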