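import Pool.Agent.U184.Ang5

set_option autoImplicit false

/-! # The equivariant motivic monodromy conjecture for homogeneous polynomials in three variables
with weighted homogeneous singularities

Let `f` be a homogeneous polynomial of degree `d > 0` in three variables, which may be reducible and
non-reduced. The candidate poles of its zeta function come from the divisors over the points of
the plane projective curve `f = 0`, and from the exceptional divisor `P²` of the blow-up of the
origin, which gives the candidate `-3/d`. This file treats all poles other than `-3/d`, and also `-3/d`, if

* the curve `f = 0` has only weighted homogeneous singularities: at each singular point of the reduced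
  curve, `f` is, in suitable formal coordinates, a weighted homogeneous polynomial (`WHForm`). For
  instance `f = ∏ f_i ^ (m_i)` with arbitrary multiplicities `m_i`, where the reduced curve
  `∏ f_i = 0` has only simple singularities, ordinary multiple points of multiplicity at most 4,
  or other quasi-homogeneous singularities; and
* there is no linear vector field `v` of trace zero with `v(f) = f` (`NoField`). If there is one, then `f`
  is semi-invariant, with a nontrivial character, for a one-dimensional torus in `SL₃`: after a
  linear change of coordinates, the exponents of the monomials of `f` lie on a line which does not
  contain `(d/3, d/3, d/3)` (for example `f = x^a y^b z^c` or `f = x^5 + y^4 z`). For these `f`, `-3/d` is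
  in general not a root of the Bernstein-Sato polynomial. It should not be a pole either, but this
  is not proved here.

The main point is the following: if `b(-3/d) ≠ 0` and the singularities are weighted homogeneous, then
there is such a vector field `v` (`core` in `Pool.Agent.U184.Core`). The functional equation shows
that on the complement of the curve the twisted form `f ^ (-3/d) (x dy dz - y dx dz + z dx dy)` is
the differential of a form with poles of some order along the curve. The order of the poles is
lowered step by step. Locally at a weighted homogeneous singularity this is a computation with the
Euler vector field; the functional equation at the points of the curve is used in order to treat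
the degrees in which the twisted Euler field has no inverse; the global step uses the exactness of
the Koszul complex of `x, y, z`. At the end there is a form with poles of order one, which is given
by a linear vector field `v` with `v(f) = f` and trace zero.

The motivic zeta function `∑_m [X_{m,1}] L^(-3 m) T^m` lies over the Grothendieck ring `M` of varieties
over `f = 0` with a good action of `μ = lim μ_n`. If the divisors `E_i`, `i ∈ I`, pass through a point,
then the class of the set of the `(a_i)` with `c ∏ a_i ^ (N_i) = 1` depends on the greatest common
divisor `g` of the `N_i` (the set is the product of a torus and of `{a | c a ^ g = 1}` with the action of
`μ_g`). The other poles are treated with `ang_main` (in `Pool.Agent.U184.Ang3`): if `b(s₀) ≠ 0`, and `E`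
is an exceptional curve of the resolution with `N_E s₀ + ν_E = 0`, then at most two other components
meet `E`, and the sum of the contributions of the strata of `E` has no pole at `s₀`, because the
greatest common divisors which occur in it are equal. (This uses a
rational solution of the differential equation which one gets from the functional equation on
`E`, see `blow_analysisM` in the library.) Finally all bad denominators are removed at the same
time over a universal ring, a polynomial ring over `ℤ[L, L⁻¹]` (`point_ang`). -/

namespace Pool.Agent.Results.MP_b48657_ag.TernaryForms

open MvPolynomial Pool.Agent.U184 Pool.Agent.W574.MO Pool.Agent.H628R4.TP

/-- **The equivariant motivic monodromy conjecture for forms in three variables with weighted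
homogeneous singularities.** `M` is a commutative ring with a unit `L`, for example the
Grothendieck ring `𝓜^μ_S` of varieties over the surface `S = {f = 0}` with a good action of
`μ = lim μ_n`, localized at `L`. Let `f` be a homogeneous polynomial of degree `d > 0` in three
variables, and let `b` be a polynomial which satisfies a functional equation
`b(s) f ^ s = P(s) f ^ (s + 1)` (in particular the Bernstein-Sato polynomial of `f`). Then the
equivariant motivic zeta function `Z` of `f` (`SpaceAng`) lies in the ring `M[T][(1 - L⁻ⁿ Tᵃ)⁻¹]`, where
the pairs `a, n ≥ 1` are such that `-n/a` is a root of `b`, or `-n/a = -3/d`; the latter only if the
plane curve `f = 0` has a singularity which is not weighted homogeneous, or if there is a linear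
vector field `v` of trace zero with `v(f) = f` (`TernPair`). -/
theorem result {M : Type} [CommRing M] (L : Mˣ) (f : MvPolynomial (Fin 3) ℂ) (d : ℕ)
    (hd : 0 < d) (hf : f.IsHomogeneous d) (b : Polynomial ℂ) (hb : IsBFunction f b)
    (Z : PowerSeries M) (hZ : SpaceAng L f d Z) : Z ∈ DenRing L (TernPair f d b) :=
  spaceAng_tern f d hf b hb Z hZ

end Pool.Agent.Results.MP_b48657_ag.TernaryForms
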