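import Pool.Agent.U184.Sys

set_option autoImplicit false

/-! # The equivariant motivic monodromy conjecture for `∑ y_j f_j(x₀, x₁, x₂)`: systems with a good member

Here the `f_j` are forms of the same degree `d` in the three variables `x₀, x₁, x₂`, and
the `y_j` are further variables: `F = univ f = ∑ y_j f_j(x₀, x₁, x₂)`.

The candidate pole `-3/d` comes from the blow-up of `x₀ = x₁ = x₂ = 0`. It is known to be a root of
the Bernstein-Sato polynomial if three of the `f_j` are algebraically independent, and for many
systems composed with a pencil (for instance pencils of curves which meet transversally; see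
`RootCond` in `Pool.Agent.N127.PB.CondDefs`). This file treats all systems which satisfy the
following condition (`NRMember`):

there is a member `g` of the linear system spanned by the `f_j` or, more generally, a form `g = G(f)`,
where `G` is a form of degree `m ≥ 1` in the `f_j` (so that `g` has the degree `d m`), such that

* the curve `g = 0`, which may be reducible and non-reduced, has only weighted homogeneous
  singularities: at each singular point of the reduced curve, `g` is, in suitable formal
  coordinates, a weighted homogeneous polynomial, and its weighted degree `n` is such that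
  `3 n / (d m)` is not an integer (`NRForm`); and
* there is no linear vector field `v` of trace zero with `v(g) = g` (`NoField`).

Nothing is assumed about the other members, and about the base points of the system; the curves
may be tangent to each other there to any order, and have common singularities and common
components. If `3/d` is the log canonical threshold (for instance if `d ≥ 3` and some member is
smooth) then the root `-3/d` is known; here the singularities may be arbitrarily bad, as long as they
are weighted homogeneous and not resonant. Examples: systems of conics with a smooth member;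
systems of quartics with a common ordinary triple point, or of quintics with a common ordinary
point of multiplicity 4, which have an irreducible member which is smooth at the other points and
has no vector field `v`; systems with fixed components of high multiplicities. For a point with
`g = u ^ a v ^ b` in suitable coordinates, all weights `n = a w + b w'` are allowed, so that there is no
resonance if `d m` does not divide both `3 a` and `3 b`.

The proof of `b(-3/d) = 0` (`root_nr` in `Pool.Agent.U184.Core2`): let `α = -3/d` and suppose that
`b(α) ≠ 0`.

* The functional equation gives polynomials `V_l` in `x` and `y` with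
  `b(α) F ^ α = ∑_l ∂_{x_l} (V_l F ^ (α - N))` for `F = ∑ y_j f_j` (`stmA`, `stmAI`).
* If `Φ(z)` is any homogeneous function of degree `α` of variables `z_j`, then the transformation
  `y ^ J F ^ (α - |J|) ↦ (∂ ^ J Φ)(f)` is compatible with the derivations `∂_{x_l}`. For `Φ = G ^ (α / m)`
  this gives `c g ^ (α / m) = ∑_l ∂_{x_l} (W_l g ^ (α / m - N))` with a constant `c ≠ 0` (`mel` in
  `Pool.Agent.U184.Mel2`).
* So on the complement of the curve `g = 0` the form `g ^ (-3/(d m)) (x dy dz - y dx dz + z dx dy)` is
  the differential of a form with poles of some order along the curve. The order of the poles is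
  lowered step by step (`core_nr`): locally at a singular point, this is a computation with the
  Euler vector field, which acts without the eigenvalue zero as `3 n / (d m)` is not an integer; the
  global step uses the exactness of the Koszul complex of `x, y, z`. At the end there is a form with
  poles of order one, which is given by a linear vector field `v` with `v(g) = g` and trace zero.

The zeta function. We consider the equivariant motivic zeta function
`Z_F(T) = ∑_{m ≥ 1} [X_{m,1}] L^(-m (3 + r)) T^m`, where `r` is the number of the variables `y_j` and
`X_{m,1}` is the set of the `m`-jets `(x(t), y(t))` with `F(x(t), y(t)) = t^m` modulo `t^(m + 1)`, with the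
action of `μ_m`, as a class relative to the space `ℂ ^ 3` of the `x(0)`: its image in
`𝓜^μ_{ℂ ^ 3}⟦T⟧` under `(x, y) ↦ x`, as in `MP_b48657_ag.ConeForms`.

* For fixed `x(t)` with `ord I(x(t)) = e ≤ m` the `m`-jets `y(t)` with `∑ y_j f_j(x(t)) = t^m` are
  an affine space of dimension `r (m + 1) - (m - e + 1)`, with an affine action of `μ_m`. So
  `Z_F(T) = c + L^(r - 1) V(T) / (1 - L⁻¹ T)`, where `V(T) = ∑_e V_e T^e`,
  `V_e = L^(-3 m) [ord I(x(t)) = e]` for all `m ≥ e`, and `c = - L^(r - 1) V_0`.
* On a log resolution of `I` the set `ord I(x(t)) = e` is a union of affine bundles over products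
  of `ℂ ∖ 0`-bundles over the strata, and `μ` acts by characters on the `ℂ ∖ 0`.
* The blow-up of the origin of `ℂ ^ 3` is a line bundle over the projective plane, and the
  resolution is the pull-back of a resolution over the plane by blow-ups of points. `EquivConeForm`
  describes the resulting `V(T)`, see `PlaneRel`.

The denominators other than those for `-3/d` are treated with the library (`curve_root`,
`point_mot`, `cone_mot`). -/

namespace Pool.Agent.Results.MP_b48657_ag.TernarySystems

open MvPolynomial Pool.Agent.W574.MO Pool.Agent.W574.SM Pool.Agent.W574.HS Pool.Agent.H628R4.TP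
open Pool.Agent.N127.PB Pool.Agent.W574.CN Pool.Agent.U184

/-- `Z` is a sum of the form
`u₀ + ∑_i w_i (L - 1) L⁻¹ T^(m_i) / (1 - L⁻¹ T^(m_i)) + ∑_{P ∈ S} κ_P Z_P`, where `u₀`, `w_i`, `κ_P`
are elements of `M`, the `m_i` are the multiplicities of the curves in the zero locus `Y` of the
ideal `(f_j)` of `ℂ[u, v]`, and `Z_P` is the contribution of the fibre over the point `P`, computed
by a sequence of blow-ups of points (`MotLocal`).

The part of the series `V(T)` of the cone over the plane `ℂ ^ 2` (with coordinates `u, v`), relative
to this cone, is such a sum: take for the curves `C_i` all the irreducible curves in `Y`, for `S` a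
finite set of points of `Y` which contains the isolated points of `Y` and the singular points of the
union of the curves and the points at which the ideal is not a power of the ideal of this union, for
`u₀` and `w_i` the classes of the cones (without the vertex) over `ℂ ^ 2 ∖ Y` and over `C_i ∖ S`,
and for `κ_P` the class of the line (without the origin) over `P`. For classes relative to `ℂ ^ 3`
these elements are independent of each other, in contrast to the case of absolute classes; here
they are arbitrary. -/
def PlaneRel {M : Type} [CommRing M] {ι : Type} (L : Mˣ) (f : ι → MvPolynomial (Fin 2) ℂ)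
    (Z : PowerSeries M) : Prop :=
  ∃ (u₀ : M) (r : ℕ) (h : Fin r → MvPolynomial (Fin 2) ℂ) (m : Fin r → ℕ) (w : Fin r → M)
    (S : Finset (Fin 2 → ℂ)) (κ : (Fin 2 → ℂ) → M) (ZP : (Fin 2 → ℂ) → PowerSeries M),
    (∀ i, IsCurve f (h i) (m i)) ∧
    (∀ P ∈ S, MotLocal L (fun j => translate P (f j)) 0 1 0 1 (ZP P)) ∧
    Z = PowerSeries.C u₀ + ∑ i, PowerSeries.C (w i) * mf L (m i) 1 +
      ∑ P ∈ S, PowerSeries.C (κ P) * ZP P

/-- `Z` is (of the form of) the image in `𝓜^μ_{ℂ ^ 3}⟦T⟧` of the equivariant motivic zeta function
`∑_{m ≥ 1} [X_{m,1}] L^(-m (3 + r)) T^m` of the polynomial `F = ∑ y_j f_j(x₀, x₁, x₂)`, where the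
`f_j` are forms of degree `d`: `Z = c + V(T) / (1 - L⁻¹ T)`, where `V(T)` is the sum of the parts
over the sets of points `x(0) ≠ 0`, see `PlaneRel`, and of the part `κ₀ Z₀` over the origin, where
`Z₀` is the local motivic zeta function of the ideal `(f_j)` at the origin, see `ConeMot`, and `κ₀`
is `L^(r + 2)` times the class of the origin. Here `M = 𝓜^μ_{ℂ ^ 3}` or any other commutative ring
with a unit `L`. -/
def EquivConeForm {M : Type} [CommRing M] {ι : Type} (L : Mˣ) (f : ι → MvPolynomial (Fin 3) ℂ)
    (d : ℕ) (Z : PowerSeries M) : Prop :=
  ∃ (c κ₀ : M) (Zc : Fin 3 → PowerSeries M) (Z₀ : PowerSeries M),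
    (∀ i, PlaneRel L (fun j => deh i (f j)) (Zc i)) ∧ ConeMot L f d Z₀ ∧
    Z = PowerSeries.C c + (∑ i, Zc i + PowerSeries.C κ₀ * Z₀) * geo L 1 1

theorem planeRel_mem {M : Type} [CommRing M] (L : Mˣ) {ι : Type} [Fintype ι] [DecidableEq ι]
    (f : ι → MvPolynomial (Fin 2) ℂ) (b : Polynomial ℂ) (hb : IsFunctionalEq f b)
    (Z : PowerSeries M) (hZ : PlaneRel L f Z) : Z ∈ DenRing L (Kb b) := by
  obtain ⟨u₀, r, h, m, w, S, κ, ZP, hC, hP, rfl⟩ := hZ
  refine Subring.add_mem _ (Subring.add_mem _ (C_mem _) ?_) ?_
  · refine Subring.sum_mem _ fun i _ => Subring.mul_mem _ (C_mem _) (mf_mem le_rfl fun _ => ?_)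
    have := curve_root f b hb (h i) (m i) (hC i)
    rw [Kb, Nat.cast_one]
    exact this
  · refine Subring.sum_mem _ fun P hPS => Subring.mul_mem _ (C_mem _) ?_
    exact point_mot L f b 1 (locEq_one f b hb) P (by rw [map_one]; exact one_ne_zero) _ (hP P hPS)

/-- **The equivariant motivic monodromy conjecture for `F = ∑ y_j f_j(x₀, x₁, x₂)`, relative to the
space of the `x`, for systems with a good member.** Let `f_j` be forms of the same degree `d > 0` in
three variables, let `b` be a polynomial which satisfies a functional equation
`b(s) F ^ s = P(s) F ^ (s + 1)` (in particular the Bernstein-Sato polynomial of `F = ∑ y_j f_j`), and let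
`Z ∈ M⟦T⟧` be the image of the equivariant motivic zeta function of `F` in `𝓜^μ_{ℂ ^ 3}⟦T⟧`.
Assume that there are a form `G` of degree `m ≥ 1` in variables `z_j` and `g = G(f)` (for `m = 1`: a
member `g` of the linear system spanned by the `f_j`), such that the plane curve `g = 0` (possibly not
reduced) has only weighted homogeneous singularities, with weighted degrees `n` such that
`3 n / (d m)` is not an integer, and such that there is no linear vector field `v` of trace zero with
`v(g) = g` (`NRMember f d`).
Then `Z` lies in the ring `M[T][(1 - L⁻ⁿ Tᵃ)⁻¹]`, where the pairs `a, n ≥ 1` are such that `-n/a` is a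
root of `b`. -/
theorem result {M : Type} [CommRing M] (L : Mˣ) {ι : Type} [Fintype ι]
    (f : ι → MvPolynomial (Fin 3) ℂ) (d : ℕ) (hd : 0 < d) (hf : ∀ j, (f j).IsHomogeneous d)
    (hg : NRMember f d) (b : Polynomial ℂ) (hb : IsBFunction (univ f) b)
    (Z : PowerSeries M) (hZ : EquivConeForm L f d Z) :
    Z ∈ DenRing L (RootPair b) := by
  classical
  have hf0 := nr_ne f d hg
  refine den_nr L f d hd b (root_nr_form f d hd hf b hb hg) Z ?_
  obtain ⟨c, κ₀, Zc, Z₀, hZc, hZ₀, rfl⟩ := hZ
  have hb' := functionalEq_of_univ f b hb
  refine Subring.add_mem _ (C_mem _) (Subring.mul_mem _ (Subring.add_mem _ ?_ ?_)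
    (geo_mem le_rfl le_rfl (pair_11 f d hf0 b hb)))
  · exact Subring.sum_mem _ fun i _ => DenRing_mono L (fun a n h => Or.inl h)
      (planeRel_mem L _ b (functionalEq_deh i f d hf b hb') _ (hZc i))
  · exact Subring.mul_mem _ (C_mem _) (cone_mot L f d hd hf b hb' Z₀ hZ₀)

end Pool.Agent.Results.MP_b48657_ag.TernarySystems
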